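/-
helper85. Module HIL of the board `mad` (Mader's conjecture, helper20): the norm.
-/
import Pool.Agent.H20.MAD.Def

set_option autoImplicit false

namespace Pool.MAD

open Finset
open scoped Classical

namespace Hil

variable {V : Type} [Fintype V] {n : ℕ} {A : ℝ}

lemma En_nn (hA : 0 ≤ A) (f : List V → ℝ) : 0 ≤ En n A f :=
  Finset.sum_nonneg fun y _ => mul_nonneg (pow_nonneg hA _) (sq_nonneg _)

/-- the inner product -/
noncomputable def ip (n : ℕ) (A : ℝ) (f g : List V → ℝ) : ℝ :=
  ∑ y ∈ ch V n, A ^ (y.length - 1) * (f y * g y)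

lemma ip_sq (hA : 0 ≤ A) (f g : List V → ℝ) : ip n A f g ^ 2 ≤ En n A f * En n A g := by
  have h := Finset.sum_mul_sq_le_sq_mul_sq (ch V n)
    (fun y => Real.sqrt (A ^ (y.length - 1)) * f y)
    (fun y => Real.sqrt (A ^ (y.length - 1)) * g y)
  have h1 : ∀ y : List V, Real.sqrt (A ^ (y.length - 1)) ^ 2 = A ^ (y.length - 1) := fun y =>
    Real.sq_sqrt (pow_nonneg hA _)
  have e1 : ∑ y ∈ ch V n, Real.sqrt (A ^ (y.length - 1)) * f y *
      (Real.sqrt (A ^ (y.length - 1)) * g y) = ip n A f g := by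
    refine Finset.sum_congr rfl fun y _ => ?_
    rw [← h1 y]; ring_nf
    rw [show Real.sqrt (A ^ (y.length - 1)) ^ 2 = A ^ (y.length - 1) from h1 y]
    rw [h1 y]
  have e2 : ∀ f : List V → ℝ, ∑ y ∈ ch V n, (Real.sqrt (A ^ (y.length - 1)) * f y) ^ 2 =
      En n A f := fun f => by
    refine Finset.sum_congr rfl fun y _ => ?_
    rw [mul_pow, h1 y]
  rw [e1, e2, e2] at h
  exact h

lemma En_add (f g : List V → ℝ) :
    En n A (fun y => f y + g y) = En n A f + 2 * ip n A f g + En n A g := by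
  unfold En ip
  rw [Finset.mul_sum, ← Finset.sum_add_distrib, ← Finset.sum_add_distrib]
  exact Finset.sum_congr rfl fun y _ => by ring

lemma nm_add (hA : 0 ≤ A) (f g : List V → ℝ) :
    nm n A (fun y => f y + g y) ≤ nm n A f + nm n A g := by
  unfold nm
  have hf := En_nn (n := n) hA f
  have hg := En_nn (n := n) hA g
  have h1 : ip n A f g ≤ Real.sqrt (En n A f) * Real.sqrt (En n A g) := by
    rw [← Real.sqrt_mul hf]
    exact Real.le_sqrt_of_sq_le (ip_sq hA f g)
  refine Real.sqrt_le_iff.mpr ⟨add_nonneg (Real.sqrt_nonneg _) (Real.sqrt_nonneg _), ?_⟩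
  rw [En_add]
  nlinarith [Real.sq_sqrt hf, Real.sq_sqrt hg]

lemma En_smul (c : ℝ) (f : List V → ℝ) : En n A (fun y => c * f y) = c ^ 2 * En n A f := by
  unfold En
  rw [Finset.mul_sum]
  exact Finset.sum_congr rfl fun y _ => by ring

lemma nm_smul (c : ℝ) (f : List V → ℝ) : nm n A (fun y => c * f y) = |c| * nm n A f := by
  unfold nm
  rw [En_smul, Real.sqrt_mul (sq_nonneg c), Real.sqrt_sq_eq_abs]

lemma nm_neg (f : List V → ℝ) : nm n A (fun y => - f y) = nm n A f := by
  have := nm_smul (n := n) (A := A) (-1) f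
  simpa using this

lemma nm_sub (hA : 0 ≤ A) (f g : List V → ℝ) :
    nm n A (fun y => f y - g y) ≤ nm n A f + nm n A g := by
  have h := nm_add (n := n) hA f (fun y => - g y)
  rw [nm_neg] at h
  simpa [sub_eq_add_neg] using h

lemma nm_comm (f g : List V → ℝ) :
    nm n A (fun y => f y - g y) = nm n A (fun y => g y - f y) := by
  rw [← nm_neg (fun y => g y - f y)]
  simp

lemma nm_sum (hA : 0 ≤ A) (ι : Type) (S : Finset ι) (q : ι → ℝ) (f : ι → List V → ℝ)
    (hq : ∀ i ∈ S, 0 ≤ q i) :
    nm n A (fun y => ∑ i ∈ S, q i * f i y) ≤ ∑ i ∈ S, q i * nm n A (f i) := by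
  induction S using Finset.induction_on with
  | empty => simp [nm, En]
  | insert a S ha ih =>
    have h1 := ih fun i hi => hq i (Finset.mem_insert_of_mem hi)
    have h2 : (fun y => ∑ i ∈ insert a S, q i * f i y) =
        fun y => q a * f a y + ∑ i ∈ S, q i * f i y := by
      funext y; rw [Finset.sum_insert ha]
    rw [h2, Finset.sum_insert ha]
    have h3 := nm_add (n := n) hA (fun y => q a * f a y) (fun y => ∑ i ∈ S, q i * f i y)
    have h4 : nm n A (fun y => q a * f a y) = q a * nm n A (f a) := by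
      rw [nm_smul, abs_of_nonneg (hq a (Finset.mem_insert_self _ _))]
    linarith

end Hil

open Hil in
theorem t_hil : HILStmt := by
  intro V _ n A hA
  refine ⟨En_nn hA, nm_add hA, nm_sub hA, nm_comm, nm_smul, ?_, nm_sum hA, ?_, ?_, ?_⟩
  · intro f g
    unfold En
    rw [Finset.mul_sum, Finset.mul_sum, ← Finset.sum_add_distrib, ← Finset.sum_add_distrib]
    exact Finset.sum_congr rfl fun y _ => by ring
  · intro ι S q f hq
    unfold En
    simp only [Finset.mul_sum]
    rw [Finset.sum_comm, Finset.sum_comm (s := S) (t := ch V n), ← Finset.sum_sub_distrib]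
    refine Finset.sum_congr rfl fun y _ => ?_
    set m := ∑ j ∈ S, q j * f j y with hm
    have e : ∀ i ∈ S, q i * (A ^ (y.length - 1) * (f i y - m) ^ 2) =
        q i * (A ^ (y.length - 1) * f i y ^ 2) - 2 * A ^ (y.length - 1) * m * (q i * f i y) +
          A ^ (y.length - 1) * m ^ 2 * q i := fun i _ => by ring
    rw [Finset.sum_congr rfl e, Finset.sum_add_distrib, Finset.sum_sub_distrib,
      ← Finset.mul_sum, ← Finset.mul_sum, hq, ← hm]
    ring
  · intro f g h0 h1
    unfold En
    rw [← Finset.sum_sub_distrib]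
    refine Finset.sum_le_sum fun y _ => ?_
    rw [← mul_sub]
    refine mul_le_mul_of_nonneg_left ?_ (pow_nonneg hA _)
    nlinarith [h0 y, h1 y, mul_nonneg (h0 y) (sub_nonneg.mpr (h1 y))]
  · intro A' f h
    unfold En
    refine Finset.sum_le_sum fun y _ => ?_
    exact mul_le_mul_of_nonneg_right (pow_le_pow_left₀ hA h _) (sq_nonneg _)

end Pool.MAD
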