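/-
helper85. Module STP of the board `mad` (Mader's conjecture, helper20): small steps.
-/
import Pool.Agent.H20.MAD.Def

set_option autoImplicit false

namespace Pool.MAD

open Finset
open scoped Classical

namespace Stp

variable {V : Type}

/-- the uniform plan of length one -/
noncomputable def uq (D : Finset V) (c : ℝ) : List V → ℝ
  | [x] => if x ∈ D then c else 0
  | _ => 0

lemma wk_one (N : V → Finset V) (B : Finset V) (u : V) :
    Wk N B 1 u = (N u).image (fun x => [x]) := by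
  ext w
  simp only [Wk, ite_self, Finset.image_singleton, Finset.mem_biUnion, Finset.mem_singleton,
    Finset.mem_image]
  constructor
  · rintro ⟨x, hx, rfl⟩; exact ⟨x, hx, rfl⟩
  · rintro ⟨x, hx, rfl⟩; exact ⟨x, hx, rfl⟩

lemma sum_wk (N : V → Finset V) (B : Finset V) (u : V) (D : Finset V) (hD : D ⊆ N u) (c : ℝ)
    (g : List V → ℝ) :
    ∑ w ∈ Wk N B 1 u, uq D c w * g w = ∑ x ∈ D, c * g [x] := by
  rw [wk_one, Finset.sum_image (by intro a _ b _ h; simpa using h)]
  rw [← Finset.sum_subset hD]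
  · exact Finset.sum_congr rfl fun x hx => by simp [uq, hx]
  · intro x _ hx; simp [uq, hx]

lemma uq_nn (D : Finset V) (c : ℝ) (hc : 0 ≤ c) : ∀ w : List V, 0 ≤ uq D c w
  | [] => le_refl _
  | [x] => by
    change 0 ≤ if x ∈ D then c else 0
    split_ifs
    · exact hc
    · exact le_refl _
  | _ :: _ :: _ => le_refl _

lemma uq_sup (N : V → Finset V) (B : Finset V) (u : V) (D : Finset V) (hD : D ⊆ N u) (c : ℝ) :
    ∀ w : List V, w ∉ Wk N B 1 u → uq D c w = 0
  | [], _ => rfl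
  | [x], h => by
    rw [wk_one, Finset.mem_image] at h
    have hx : x ∉ D := fun hx => h ⟨x, hD hx, rfl⟩
    simp [uq, hx]
  | _ :: _ :: _, _ => rfl

lemma cv_uq (N : V → Finset V) (B : Finset V) (u : V) (D : Finset V) (hD : D ⊆ N u) (c : ℝ)
    (y : List V) : cv (Wk N B 1 u) (uq D c) y = ∑ x ∈ D, c * cnt y [x] :=
  sum_wk N B u D hD c (cnt y)

lemma cv_one (N : V → Finset V) (B : Finset V) (u : V) (D : Finset V) (hD : D ⊆ N u) (c : ℝ)
    (z : V) : cv (Wk N B 1 u) (uq D c) [z] = if z ∈ D then c else 0 := by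
  rw [cv_uq N B u D hD]
  simp [cnt]

lemma cv_two (N : V → Finset V) (B : Finset V) (u : V) (D : Finset V) (hD : D ⊆ N u) (c : ℝ)
    (a b : V) (l : List V) : cv (Wk N B 1 u) (uq D c) (a :: b :: l) = 0 := by
  rw [cv_uq N B u D hD]
  simp [cnt]

lemma En_uq [Fintype V] (N : V → Finset V) (n : ℕ) (A : ℝ) (hA : 0 ≤ A) (B : Finset V) (u : V)
    (D : Finset V) (hD : D ⊆ N u) (c : ℝ) :
    En n A (cv (Wk N B 1 u) (uq D c)) ≤ D.card * c ^ 2 := by
  unfold En
  have h0 : ∀ y : List V, 0 ≤ A ^ (y.length - 1) * cv (Wk N B 1 u) (uq D c) y ^ 2 := fun y =>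
    mul_nonneg (pow_nonneg hA _) (sq_nonneg _)
  have h1 : ∑ y ∈ ch V n, A ^ (y.length - 1) * cv (Wk N B 1 u) (uq D c) y ^ 2 =
      ∑ y ∈ (ch V n).filter (fun y => y ∈ D.image (fun z => [z])),
        A ^ (y.length - 1) * cv (Wk N B 1 u) (uq D c) y ^ 2 := by
    symm
    refine Finset.sum_subset (Finset.filter_subset _ _) fun y hy hy' => ?_
    rw [Finset.mem_filter, not_and] at hy'
    have hy2 := hy' hy
    match y, hy, hy2 with
    | [], hy, _ => exact absurd rfl (Finset.mem_filter.mp hy).2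
    | [z], _, hy2 =>
      have hz : z ∉ D := fun hz => hy2 (Finset.mem_image.mpr ⟨z, hz, rfl⟩)
      rw [cv_one N B u D hD]; simp [hz]
    | a :: b :: l, _, _ => rw [cv_two N B u D hD]; simp
  rw [h1]
  refine (Finset.sum_le_sum_of_subset_of_nonneg (t := D.image (fun z => [z]))
    (fun y hy => (Finset.mem_filter.mp hy).2) fun y _ _ => h0 y).trans ?_
  rw [Finset.sum_image (by intro a _ b _ h; simpa using h)]
  have h2 : ∀ z ∈ D, A ^ ([z].length - 1) * cv (Wk N B 1 u) (uq D c) [z] ^ 2 = c ^ 2 := by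
    intro z hz
    rw [cv_one N B u D hD]; simp [hz]
  rw [Finset.sum_congr rfl h2, Finset.sum_const, nsmul_eq_mul]

end Stp

open Stp in
theorem t_stp (hC : CATStmt) (hH : HILStmt) (hM : MINStmt) (hW : WLKStmt) : STPStmt := by
  intro V _ N n d A ρ B T u hN hA hρ hAρ hd hdu hu hz
  obtain ⟨D, hD, hDc⟩ := Finset.exists_subset_card_eq hdu
  have hd' : (0 : ℝ) < d := by exact_mod_cast hd
  set Q := uq D ((1 : ℝ) / d) with hQ
  have hQp : Pln (Wk N B 1 u) Q := by
    refine ⟨uq_nn D _ (by positivity), uq_sup N B u D hD _, ?_⟩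
    have := sum_wk N B u D hD ((1 : ℝ) / d) (fun _ => 1)
    simp only [mul_one] at this
    rw [hQ, this, Finset.sum_const, hDc, nsmul_eq_mul]
    field_simp
  obtain ⟨h1, h2, h3, h4, h5, h6, h7, h8, h9, h10⟩ := hH V n A hA.le
  have hlen : ∀ w ∈ Wk N B 1 u, En n A (mv N n A B (T + 1 - w.length) (lst u w)) ≤ ρ := by
    intro w hw
    rw [wk_one, Finset.mem_image] at hw
    obtain ⟨x, _, rfl⟩ := hw
    simp only [List.length_cons, List.length_nil, zero_add, Nat.add_sub_cancel, lst]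
    by_cases hx : x ∈ B
    · exact hz x hx
    · have : mv N n A B T x = fun _ => 0 := by unfold mv; rw [if_neg hx]
      rw [this]; simpa [En] using hρ
  obtain ⟨C, hCp, hC1⟩ := hC V N n A ρ B B 1 (T + 1) u Q hN hA hρ hAρ (Finset.Subset.refl _)
    (Nat.le_add_left 1 T) hu hQp hlen
  have hne : (Wk N B (T + 1) u).Nonempty := (hW V N hN).1 B (T + 1) u
  have hmin := (hM V n A (Wk N B (T + 1) u) hA.le hne).2 C hCp
  have e1 : mv N n A B (T + 1) u = cv (Wk N B (T + 1) u) (mp n A (Wk N B (T + 1) u)) := by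
    unfold mv; rw [if_pos hu]
  have k1 : nm n A (mv N n A B (T + 1) u) ≤ nm n A (cv (Wk N B (T + 1) u) C) := by
    rw [e1]; exact Real.sqrt_le_sqrt hmin
  set m : List V → ℝ := fun y =>
    ∑ w ∈ Wk N B 1 u, Q w * mv N n A B (T + 1 - w.length) (lst u w) y with hm
  have k2 : nm n A (cv (Wk N B (T + 1) u) C) ≤
      nm n A (fun y => cv (Wk N B (T + 1) u) C y - m y) + nm n A m := by
    have := h2 (fun y => cv (Wk N B (T + 1) u) C y - m y) m
    simpa using this
  have k3 : nm n A m ≤ Real.sqrt ρ := by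
    refine (h7 (List V) (Wk N B 1 u) Q (fun w => mv N n A B (T + 1 - w.length) (lst u w))
      (fun w _ => hQp.nn w)).trans ?_
    calc ∑ w ∈ Wk N B 1 u, Q w * nm n A (mv N n A B (T + 1 - w.length) (lst u w))
        ≤ ∑ w ∈ Wk N B 1 u, Q w * Real.sqrt ρ := Finset.sum_le_sum fun w hw =>
          mul_le_mul_of_nonneg_left (Real.sqrt_le_sqrt (hlen w hw)) (hQp.nn w)
      _ = Real.sqrt ρ := by rw [← Finset.sum_mul, hQp.tot, one_mul]
  have k4 : nm n (2 * A) (cv (Wk N B 1 u) Q) ≤ 1 / Real.sqrt d := by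
    unfold nm
    have e := En_uq N n (2 * A) (by linarith) B u D hD ((1 : ℝ) / d)
    rw [hDc] at e
    have e2 : (d : ℝ) * (1 / (d : ℝ)) ^ 2 = 1 / d := by field_simp
    rw [e2] at e
    rw [show (1 : ℝ) / Real.sqrt d = Real.sqrt (1 / d) by
      rw [Real.sqrt_div zero_le_one, Real.sqrt_one]]
    exact Real.sqrt_le_sqrt e
  have k5 : (2 : ℝ) / Real.sqrt d = 2 * (1 / Real.sqrt d) := by ring
  rw [k5]
  linarith

end Pool.MAD
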